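import Pool.Agent.HC.Diag
import Pool.Agent.HC.Short

set_option autoImplicit false

/-!
Project HC (MP_0b9e0b_ag): the definitions of the final theorem for
`∏ x_j^(e_j) + t ∑ a_j x_j^m = 0`.
-/

namespace Pool.Agent.HC

open Pool.Agent.Helper16

/-- The number `J (q^N + q) / (q + 1)`, where `J` is the number of `j` with `e_j > 0`. -/
def excess {N : ℕ} (e : Fin (N + 1) → ℕ) (q : ℕ) : ℕ :=
  (Finset.univ.filter fun j => e j ≠ 0).card * ((q ^ N + q) / (q + 1))

/-- The order of the polynomial `L` at `T = (#k)^(-(r + 1))` is `n`. -/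
def OrdDW (k : Type) [Field k] {N : ℕ} (e : Fin (N + 1) → ℕ) (r n : ℕ) : Prop :=
  ∃ L : Polynomial ℚ, IsLDW k e (L : PowerSeries ℚ) ∧
    L.rootMultiplicity (((Nat.card k : ℚ) ^ (r + 1))⁻¹) = n

/-- Bounds for the dimension of `CH_r(X)` with rational coefficients, where `X` is the
hypersurface `∏ x_j^(e_j) + t ∑ a_j x_j^m = 0` in `P^N` over `k(t)` and `m = ∑ e_j`: it is at most
`1` if `2 r + 2` is not `N`, and otherwise at most `1 + J (q^N + q) / (q + 1)`, where `J` is the
number of `j` with `e_j > 0`. If moreover `m = q + 1`, all `a_j` are `1` and the number of elements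
of `k` is a power of `q^2`, then `J (q^N + q) / (q + 1)` is the order of the polynomial `L` at
`T = (#k)^(-(r + 1))`. -/
def ChowBoundDiag {k : Type} [Field k] {N : ℕ} (e : Fin (N + 1) → ℕ) (a : Fin (N + 1) → k)
    (q r : ℕ) : Prop :=
  (2 * r + 2 ≠ N → dimCH {eqDiag e a} r ≤ 1) ∧
  (2 * r + 2 = N → dimCH {eqDiag e a} r ≤ ((1 + excess e q : ℕ) : Cardinal)) ∧
  (2 * r + 2 = N → ∑ j, e j = q + 1 → (∀ j, a j = 1) → (∃ μ, μ ≠ 0 ∧ Nat.card k = q ^ (2 * μ)) →
    OrdDW k e r (excess e q))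

section defs

variable {k : Type} [Field k] {N : ℕ}

/-- The product of the `x_j` with `e_j > 0`. -/
noncomputable def prodForm (k : Type) [Field k] {N : ℕ} (e : Fin (N + 1) → ℕ) :
    MvPolynomial (Fin (N + 1)) k :=
  ∏ j ∈ Finset.univ.filter (fun j => e j ≠ 0), MvPolynomial.X j

/-- The form `∑ a_j x_j^m + g ∏ x_j`, the product over the `j` with `e_j > 0`. -/
noncomputable def formG (e : Fin (N + 1) → ℕ) (a : Fin (N + 1) → k)
    (g : MvPolynomial (Fin (N + 1)) k) : MvPolynomial (Fin (N + 1)) k :=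
  diagForm a (∑ j, e j) + g * prodForm k e

/-- The form `∏ x_j^(e_j) + t (∑ a_j x_j^m + g ∏ x_j)` over `k(t)`, where `m = ∑ e_j` and the last
product is over the `j` with `e_j > 0`. -/
noncomputable def eqG (e : Fin (N + 1) → ℕ) (a : Fin (N + 1) → k)
    (g : MvPolynomial (Fin (N + 1)) k) : MvPolynomial (Fin (N + 1)) (RatFunc k) :=
  linQ (monForm k e) (formG e a g)

end defs

open Finset in
/-- `(#κ - 1)` times the sum, over the points `t ≠ 0` of the projective line over the finite field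
`κ` containing `k`, of `#P^(N-1)(κ) - #X_t(κ)`, where `X_t` is the hypersurface
`∏ x_j^(e_j) + t G = 0` in `P^N`, and where `X_∞` is `G = 0`. -/
noncomputable def countG {k : Type} (κ : Type) [Field k] [Field κ] [Algebra k κ] {N : ℕ}
    (e : Fin (N + 1) → ℕ) (G : MvPolynomial (Fin (N + 1)) k) : ℤ :=
  (∑ᶠ t : κˣ, (((Nat.card κ : ℤ) ^ N - 1) -
    zeros (monForm κ e + MvPolynomial.C (t : κ) * MvPolynomial.map (algebraMap k κ) G))) +
  (((Nat.card κ : ℤ) ^ N - 1) - zeros (MvPolynomial.map (algebraMap k κ) G))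

/-- `L` is the power series with constant coefficient `1` and `T L' / L = ∑ c_n T^n`, where
`c_n` is the sum, over the points `t ≠ 0` of the projective line over the extension of `k` of degree
`n`, of `#P^(N-1) - #X_t`, and `X_t` is the hypersurface `∏ x_j^(e_j) + t G = 0`. -/
def IsLG {k : Type} [Field k] {N : ℕ} (e : Fin (N + 1) → ℕ) (G : MvPolynomial (Fin (N + 1)) k)
    (L : PowerSeries ℚ) : Prop :=
  PowerSeries.constantCoeff L = 1 ∧ ∃ c : ℕ → ℚ, c 0 = 0 ∧
    (∀ (κ : Type) [Field κ] [Algebra k κ], Module.finrank k κ ≠ 0 →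
      ((Nat.card κ : ℚ) - 1) * c (Module.finrank k κ) = countG κ e G) ∧
    PowerSeries.X * PowerSeries.derivative ℚ L = L * PowerSeries.mk c

/-- The order of the polynomial `L` at `T = (#k)^(-(r + 1))` is `n`. -/
def OrdG {k : Type} [Field k] {N : ℕ} (e : Fin (N + 1) → ℕ) (G : MvPolynomial (Fin (N + 1)) k)
    (r n : ℕ) : Prop :=
  ∃ L : Polynomial ℚ, IsLG e G (L : PowerSeries ℚ) ∧
    L.rootMultiplicity (((Nat.card k : ℚ) ^ (r + 1))⁻¹) = n

/-- Bounds for the dimension of `CH_r(X)` with rational coefficients, where `X` is the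
hypersurface `∏ x_j^(e_j) + t G = 0` in `P^N` over `k(t)`, `G = ∑ a_j x_j^m + g ∏ x_j`, the last
product over the `j` with `e_j > 0`, and `m = ∑ e_j`: it is at most `1` if `2 r + 2` is not `N`, and
otherwise at most `1 + J (q^N + q) / (q + 1)`, where `J` is the number of `j` with `e_j > 0`. If
moreover `m = q + 1`, all `a_j` are `1` and the number of elements of `k` is a power of `q^2`, then
`J (q^N + q) / (q + 1)` is the order of the polynomial `L` at `T = (#k)^(-(r + 1))`. -/
def ChowBoundG {k : Type} [Field k] {N : ℕ} (e : Fin (N + 1) → ℕ) (a : Fin (N + 1) → k)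
    (g : MvPolynomial (Fin (N + 1)) k) (q r : ℕ) : Prop :=
  (2 * r + 2 ≠ N → dimCH {eqG e a g} r ≤ 1) ∧
  (2 * r + 2 = N → dimCH {eqG e a g} r ≤ ((1 + excess e q : ℕ) : Cardinal)) ∧
  (2 * r + 2 = N → ∑ j, e j = q + 1 → (∀ j, a j = 1) → (∃ μ, μ ≠ 0 ∧ Nat.card k = q ^ (2 * μ)) →
    OrdG e (formG e a g) r (excess e q))

end Pool.Agent.HC
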